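import Pool.Agent.W662.KKS.Stmts

/-!
KKS-PRJ: a projection close to a von Neumann algebra is conjugate to a projection of it by a
unitary close to one.
-/

set_option autoImplicit false
set_option linter.unusedSectionVars false

open scoped InnerProductSpace
open Pool.Agent.Helper278

namespace Pool.Agent.W346.KKS

open Pool.Agent.W662.KKS

section
variable {H : Type} [NormedAddCommGroup H] [InnerProductSpace ℂ H] [CompleteSpace H]

theorem norm_le_one_of_star_mul {w : H →L[ℂ] H} (hw : star w * w = 1) : ‖w‖ ≤ 1 := by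
  have h1 : ‖star w * w‖ = ‖w‖ * ‖w‖ := CStarRing.norm_star_mul_self
  rw [hw] at h1
  have h2 : ‖(1 : H →L[ℂ] H)‖ ≤ 1 := ContinuousLinearMap.norm_id_le
  nlinarith [norm_nonneg w]

/-- a symmetry close to a selfadjoint element -/
theorem symm_near (A : VonNeumannAlgebra H) {T : H →L[ℂ] H} (hT : star T = T) (hTA : T ∈ A)
    {ε : ℝ} (hε : ε ≤ 1 / 2) (h : ‖T * T - 1‖ ≤ ε) :
    ∃ g ∈ A, star g = g ∧ g * g = 1 ∧ ‖g - T‖ ≤ ε := by
  have hε0 : 0 ≤ ε := (norm_nonneg _).trans h
  have hsa : IsSelfAdjoint T := hT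
  have hspec : ∀ t ∈ spectrum ℝ T, |t * t - 1| ≤ ε := by
    intro t ht
    have h3 : cfc (fun t : ℝ => t * t - 1) T = T * T - 1 := by
      rw [cfc_sub (fun t : ℝ => t * t) (fun _ => 1) T (by fun_prop) (by fun_prop),
        cfc_mul (fun t : ℝ => t) (fun t : ℝ => t) T (by fun_prop) (by fun_prop), cfc_id' ℝ T,
        cfc_const_one ℝ T]
    have h4 := norm_apply_le_norm_cfc (fun t : ℝ => t * t - 1) T ht
    rw [h3, Real.norm_eq_abs] at h4
    exact h4.trans h
  set G : ℝ → ℝ := fun t => max (-1) (min 1 (4 * t)) with hG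
  have hGc : Continuous G := by
    rw [hG]
    exact continuous_const.max (continuous_const.min (continuous_const.mul continuous_id))
  have hval : ∀ t ∈ spectrum ℝ T, (G t = 1 ∧ 1 / 2 ≤ t) ∨ (G t = -1 ∧ t ≤ -(1 / 2)) := by
    intro t ht
    have h1 := hspec t ht
    rw [abs_le] at h1
    rcases le_or_gt 0 t with h0 | h0
    · left
      have h2 : 1 / 2 ≤ t := by nlinarith
      refine ⟨?_, h2⟩
      show max (-1) (min 1 (4 * t)) = 1
      rw [min_eq_left (by linarith), max_eq_right (by norm_num)]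
    · right
      have h2 : t ≤ -(1 / 2) := by nlinarith
      refine ⟨?_, h2⟩
      show max (-1) (min 1 (4 * t)) = -1
      rw [min_eq_right (by linarith), max_eq_left (by linarith)]
  refine ⟨cfc G T, ?_, ?_, ?_, ?_⟩
  · have h1 : cfc G T ∈ Set.centralizer (Set.centralizer (A : Set (H →L[ℂ] H))) := by
      rw [Set.mem_centralizer_iff]
      intro t ht
      have h2 : Commute t T := (ht T hTA).symm
      exact ((h2.symm.cfc_real G).symm).eq
    rw [VonNeumannAlgebra.centralizer_centralizer] at h1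
    exact h1
  · exact (cfc_predicate G T : IsSelfAdjoint (cfc G T)).star_eq
  · rw [← cfc_mul G G T hGc.continuousOn hGc.continuousOn, ← cfc_const_one ℝ T]
    refine cfc_congr fun t ht => ?_
    show G t * G t = 1
    rcases hval t ht with ⟨h1, _⟩ | ⟨h1, _⟩ <;> rw [h1] <;> norm_num
  · have h1 : cfc G T - T = cfc (fun t => G t - t) T := by
      rw [cfc_sub G (fun t : ℝ => t) T hGc.continuousOn (by fun_prop), cfc_id' ℝ T]
    rw [h1]
    refine norm_cfc_le hε0 fun t ht => ?_
    rw [Real.norm_eq_abs]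
    refine le_trans ?_ (hspec t ht)
    rcases hval t ht with ⟨h2, h3⟩ | ⟨h2, h3⟩
    · rw [h2]
      have h7 : t * t - 1 = -(1 - t) * (t + 1) := by ring
      rw [h7, abs_mul, abs_neg]
      have h8 : 1 ≤ |t + 1| := by
        rw [abs_of_pos (by linarith)]
        linarith
      nlinarith [abs_nonneg (1 - t)]
    · rw [h2]
      have h7 : t * t - 1 = (-1 - t) * (1 - t) := by ring
      rw [h7, abs_mul]
      have h8 : 1 ≤ |1 - t| := by
        rw [abs_of_pos (by linarith)]
        linarith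
      nlinarith [abs_nonneg (-1 - t)]

/-- two close symmetries are conjugate by a unitary close to one -/
theorem symm_conj {r s : H →L[ℂ] H} (hr : star r = r) (hrr : r * r = 1) (hs : star s = s)
    (hss : s * s = 1) {η : ℝ} (hη : η ≤ 1 / 4) (h : ‖r - s‖ ≤ η) :
    ∃ w ∈ unitary (H →L[ℂ] H), r * w = w * s ∧ ‖w - 1‖ ≤ 3 * η := by
  have hη0 : 0 ≤ η := (norm_nonneg _).trans h
  have hr1 : ‖r‖ ≤ 1 := norm_le_one_of_star_mul (by rw [hr, hrr])
  have hs1 : ‖s‖ ≤ 1 := norm_le_one_of_star_mul (by rw [hs, hss])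
  set Z : H →L[ℂ] H := (2 : ℂ)⁻¹ • (1 + r * s) with hZ
  have hsZ : star Z = (2 : ℂ)⁻¹ • (1 + s * r) := by
    rw [hZ, star_smul, star_add, star_mul, hr, hs, star_one]
    congr 1
    simp
  set A : H →L[ℂ] H := star Z * Z with hA
  have hA1 : A = (4 : ℂ)⁻¹ • (2 + r * s + s * r) := by
    rw [hA, hsZ, hZ, smul_mul_smul_comm]
    have e1 : (1 + s * r) * (1 + r * s) = 2 + r * s + s * r := by
      have : s * r * (r * s) = 1 := by
        calc s * r * (r * s) = s * (r * r) * s := by noncomm_ring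
          _ = 1 := by rw [hrr, mul_one, hss]
      calc (1 + s * r) * (1 + r * s) = 1 + r * s + s * r + s * r * (r * s) := by noncomm_ring
        _ = 2 + r * s + s * r := by rw [this, ← one_add_one_eq_two]; abel
    rw [e1]
    norm_num
  have hA2 : Z * star Z = A := by
    rw [hA1, hsZ, hZ, smul_mul_smul_comm]
    have e1 : (1 + r * s) * (1 + s * r) = 2 + r * s + s * r := by
      have : r * s * (s * r) = 1 := by
        calc r * s * (s * r) = r * (s * s) * r := by noncomm_ring
          _ = 1 := by rw [hss, mul_one, hrr]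
      calc (1 + r * s) * (1 + s * r) = 1 + r * s + s * r + r * s * (s * r) := by noncomm_ring
        _ = 2 + r * s + s * r := by rw [this, ← one_add_one_eq_two]; abel
    rw [e1]
    norm_num
  have hrA : Commute A r := by
    show A * r = r * A
    rw [hA1, smul_mul_assoc, mul_smul_comm]
    congr 1
    calc (2 + r * s + s * r) * r = 2 * r + r * s * r + s * (r * r) := by noncomm_ring
      _ = r * 2 + (r * r) * s + r * s * r := by rw [hrr]; noncomm_ring
      _ = r * (2 + r * s + s * r) := by noncomm_ring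
  have hsA : Commute A s := by
    show A * s = s * A
    rw [hA1, smul_mul_assoc, mul_smul_comm]
    congr 1
    calc (2 + r * s + s * r) * s = 2 * s + r * (s * s) + s * r * s := by noncomm_ring
      _ = s * 2 + s * r * s + (s * s) * r := by rw [hss]; noncomm_ring
      _ = s * (2 + r * s + s * r) := by noncomm_ring
  have hZ1 : ‖Z - 1‖ ≤ η := by
    have e1 : Z - 1 = (2 : ℂ)⁻¹ • ((r - s) * s) := by
      have : (1 : H →L[ℂ] H) = (2 : ℂ)⁻¹ • (1 + s * s) := by
        rw [hss, ← two_smul ℂ (1 : H →L[ℂ] H), smul_smul]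
        norm_num
      calc Z - 1 = (2 : ℂ)⁻¹ • (1 + r * s) - (2 : ℂ)⁻¹ • (1 + s * s) := by rw [← this]
        _ = (2 : ℂ)⁻¹ • ((r - s) * s) := by rw [← smul_sub]; congr 1; noncomm_ring
    rw [e1, norm_smul]
    have e2 : ‖(r - s) * s‖ ≤ η * 1 :=
      (norm_mul_le _ _).trans (mul_le_mul h hs1 (norm_nonneg _) hη0)
    have e3 : ‖(2 : ℂ)⁻¹‖ = 1 / 2 := by norm_num
    rw [e3]
    linarith
  have hone : ‖(1 : H →L[ℂ] H)‖ ≤ 1 := ContinuousLinearMap.norm_id_le
  have hZn : ‖Z‖ ≤ 1 + η := by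
    calc ‖Z‖ = ‖(Z - 1) + 1‖ := by congr 1; abel
      _ ≤ ‖Z - 1‖ + ‖(1 : H →L[ℂ] H)‖ := norm_add_le _ _
      _ ≤ 1 + η := by linarith
  have hAn : ‖A - 1‖ ≤ 9 / 4 * η := by
    have e1 : A - 1 = star (Z - 1) * Z + (Z - 1) := by
      rw [hA, star_sub, star_one]; noncomm_ring
    rw [e1]
    refine (norm_add_le _ _).trans ?_
    have e2 : ‖star (Z - 1) * Z‖ ≤ η * (1 + η) :=
      (norm_mul_le _ _).trans (mul_le_mul (by rw [norm_star]; exact hZ1) hZn (norm_nonneg _) hη0)
    nlinarith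
  set ε : ℝ := 9 / 4 * η with hεd
  have hε : ε < 1 := by rw [hεd]; linarith
  have hε0 : 0 ≤ ε := by positivity
  have hsa : IsSelfAdjoint A := IsSelfAdjoint.star_mul_self Z
  have hspec : ∀ t ∈ spectrum ℝ A, |t - 1| ≤ ε := by
    intro t ht
    have h3 : cfc (fun t : ℝ => t - 1) A = A - 1 := by
      rw [cfc_sub (fun t : ℝ => t) (fun _ => 1) A (by fun_prop) (by fun_prop), cfc_id' ℝ A,
        cfc_const_one ℝ A]
    have h4 := norm_apply_le_norm_cfc (fun t : ℝ => t - 1) A ht
    rw [h3, Real.norm_eq_abs] at h4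
    exact h4.trans hAn
  have hpos : ∀ t ∈ spectrum ℝ A, 0 < t := by
    intro t ht
    have := (abs_le.1 (hspec t ht)).1
    linarith
  have hcont : ContinuousOn (fun t : ℝ => (√t)⁻¹) (spectrum ℝ A) := by
    refine ContinuousOn.inv₀ (Real.continuous_sqrt.continuousOn) fun t ht => ?_
    exact (Real.sqrt_pos.2 (hpos t ht)).ne'
  set c : H →L[ℂ] H := cfc (fun t : ℝ => (√t)⁻¹) A with hc
  have hcsa : star c = c := (cfc_predicate (fun t : ℝ => (√t)⁻¹) A : IsSelfAdjoint c).star_eq
  have hcAc : c * A * c = 1 := by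
    have h3 : A = cfc (fun t : ℝ => t) A := (cfc_id' ℝ A).symm
    conv_lhs => arg 1; arg 2; rw [h3]
    rw [hc, ← cfc_mul (fun t : ℝ => (√t)⁻¹) (fun t : ℝ => t) A hcont (by fun_prop),
      ← cfc_mul (fun t : ℝ => (√t)⁻¹ * t) (fun t : ℝ => (√t)⁻¹) A (hcont.mul (by fun_prop)) hcont]
    rw [← cfc_const_one ℝ A]
    refine cfc_congr fun t ht => ?_
    have h4 := hpos t ht
    have h5 : √t * √t = t := Real.mul_self_sqrt h4.le
    have h6 : √t ≠ 0 := (Real.sqrt_pos.2 h4).ne'
    show (√t)⁻¹ * t * (√t)⁻¹ = 1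
    field_simp
    rw [sq, h5]
  have hcr : Commute c r := by rw [hc]; exact hrA.cfc_real _
  have hcs : Commute c s := by rw [hc]; exact hsA.cfc_real _
  have hcZ : Commute c Z := by
    show c * Z = Z * c
    rw [hZ, mul_smul_comm, smul_mul_assoc, mul_add, add_mul, mul_one, one_mul, ← mul_assoc,
      hcr.eq, mul_assoc, hcs.eq, mul_assoc]
  set w : H →L[ℂ] H := Z * c with hw
  have hww : star w * w = 1 := by
    rw [hw, star_mul, hcsa, ← hcAc, hA]
    noncomm_ring
  have hww' : w * star w = 1 := by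
    rw [← hcAc, hw, star_mul, hcsa, ← hA2]
    calc Z * c * (c * star Z) = (Z * c) * c * star Z := by noncomm_ring
      _ = (c * Z) * c * star Z := by rw [hcZ.eq]
      _ = c * (Z * c) * star Z := by noncomm_ring
      _ = c * (c * Z) * star Z := by rw [hcZ.eq]
      _ = c * (c * (Z * star Z)) := by noncomm_ring
      _ = c * (c * A) := by rw [hA2]
      _ = c * (A * c) := by
          have hcomm : Commute c A := by
            rw [hc]
            exact (Commute.refl A).cfc_real _
          rw [hcomm.eq]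
      _ = c * (Z * star Z) * c := by rw [hA2]; exact (mul_assoc c A c).symm
  refine ⟨w, Unitary.mem_iff.2 ⟨hww, hww'⟩, ?_, ?_⟩
  · have e1 : r * Z = Z * s := by
      rw [hZ, mul_smul_comm, smul_mul_assoc, mul_add, add_mul, mul_one, one_mul, ← mul_assoc, hrr,
        one_mul, mul_assoc, hss, mul_one, add_comm]
    rw [hw, ← mul_assoc, e1, mul_assoc, mul_assoc, hcs.eq]
  · -- distance
    have hsq : ContinuousOn (fun t : ℝ => √t) (spectrum ℝ A) := Real.continuous_sqrt.continuousOn
    have h3 : c * cfc (fun t : ℝ => √t) A = 1 := by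
      rw [hc, ← cfc_mul _ _ A hcont hsq, ← cfc_const_one ℝ A]
      refine cfc_congr fun t ht => ?_
      exact inv_mul_cancel₀ (Real.sqrt_pos.2 (hpos t ht)).ne'
    have h4 : w - Z = w * (1 - cfc (fun t : ℝ => √t) A) := by
      rw [mul_sub, mul_one, hw, mul_assoc, h3, mul_one]
    have h5 : ‖1 - cfc (fun t : ℝ => √t) A‖ ≤ 3 / 2 * η := by
      rw [← cfc_const_one ℝ A, ← cfc_sub _ _ A (by fun_prop) hsq]
      refine norm_cfc_le (by positivity) fun t ht => ?_
      have h6 := hpos t ht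
      rw [Real.norm_eq_abs]
      have h10 := hspec t ht
      have h7 : t - 1 = (√t - 1) * (√t + 1) := by
        have := Real.mul_self_sqrt h6.le
        linear_combination -this
      rw [h7, abs_mul] at h10
      have h9 : 2 / 5 ≤ t := by
        have := (abs_le.1 (hspec t ht)).1
        rw [hεd] at this
        linarith
      have h11 : (6 : ℝ) / 10 ≤ √t := by
        rw [show (6 : ℝ) / 10 = √((6 / 10) ^ 2) from (Real.sqrt_sq (by norm_num)).symm]
        exact Real.sqrt_le_sqrt (by norm_num; linarith)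
      have h8 : 8 / 5 ≤ |√t + 1| := by
        rw [abs_of_pos (by positivity)]
        linarith
      rw [abs_sub_comm]
      have h12 := abs_nonneg (√t - 1)
      rw [hεd] at h10
      by_contra hcon
      push Not at hcon
      nlinarith
    have h6 : ‖w - Z‖ ≤ 3 / 2 * η := by
      rw [h4]
      calc ‖w * (1 - cfc (fun t : ℝ => √t) A)‖ ≤ ‖w‖ * ‖1 - cfc (fun t : ℝ => √t) A‖ :=
            norm_mul_le _ _
        _ ≤ 1 * (3 / 2 * η) :=
            mul_le_mul (norm_le_one_of_star_mul hww) h5 (norm_nonneg _) zero_le_one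
        _ = 3 / 2 * η := one_mul _
    calc ‖w - 1‖ = ‖(w - Z) + (Z - 1)‖ := by congr 1; abel
      _ ≤ ‖w - Z‖ + ‖Z - 1‖ := norm_add_le _ _
      _ ≤ 3 * η := by linarith

end

theorem prj : S_PRJ := by
  refine ⟨1000, by norm_num, ?_⟩
  intro H _ _ _ A e d he hee hd0 hd ⟨y, hyA, hy⟩
  have hd1 : d ≤ 1 / 1000 := hd
  -- selfadjoint approximation
  set z : H →L[ℂ] H := (2 : ℂ)⁻¹ • (y + star y) with hz
  have hzA : z ∈ A := by
    have h1 : star y ∈ A := star_mem (s := A.toStarSubalgebra) hyA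
    have h2 : y + star y ∈ A.toStarSubalgebra := add_mem hyA h1
    exact A.toStarSubalgebra.smul_mem h2 _
  have hzs : star z = z := by
    rw [hz, star_smul, star_add, star_star, add_comm]
    congr 1
    simp
  have hez : ‖z - e‖ ≤ d := by
    have e1 : z - e = (2 : ℂ)⁻¹ • ((y - e) + star (y - e)) := by
      have h2 : e = (2 : ℂ)⁻¹ • (e + star e) := by
        rw [he, ← two_smul ℂ e, smul_smul]
        norm_num
      calc z - e = (2 : ℂ)⁻¹ • (y + star y) - (2 : ℂ)⁻¹ • (e + star e) := by rw [← h2]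
        _ = (2 : ℂ)⁻¹ • ((y - e) + star (y - e)) := by
          rw [← smul_sub, star_sub]; congr 1; abel
    rw [e1, norm_smul]
    have e2 : ‖(y - e) + star (y - e)‖ ≤ d + d := by
      refine (norm_add_le _ _).trans ?_
      rw [norm_star, norm_sub_rev]
      exact add_le_add hy hy
    have e3 : ‖(2 : ℂ)⁻¹‖ = 1 / 2 := by norm_num
    rw [e3]
    linarith
  -- symmetries
  set s : H →L[ℂ] H := (2 : ℂ) • e - 1 with hs
  have hss : star s = s := by
    rw [hs, star_sub, star_smul, he, star_one]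
    congr 2
    simp
  have hs2 : s * s = 1 := by
    rw [hs]
    have e1 : ((2 : ℂ) • e - 1) * ((2 : ℂ) • e - 1) = (2 : ℂ) • ((2 : ℂ) • (e * e)) - (2 : ℂ) • e
        - (2 : ℂ) • e + 1 := by
      rw [sub_mul, mul_sub, mul_sub, smul_mul_smul_comm, smul_smul]
      simp only [mul_one, one_mul]
      abel
    rw [e1, hee, smul_smul]
    have e2 : ((2 : ℂ) * 2) • e = (2 : ℂ) • e + (2 : ℂ) • e := by
      rw [← add_smul]
      norm_num
    rw [e2]
    abel
  have hs1 : ‖s‖ ≤ 1 := norm_le_one_of_star_mul (by rw [hss, hs2])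
  set T : H →L[ℂ] H := (2 : ℂ) • z - 1 with hT
  have hTs : star T = T := by
    rw [hT, star_sub, star_smul, hzs, star_one]
    congr 2
    simp
  have hTA : T ∈ A.toStarSubalgebra :=
    sub_mem (A.toStarSubalgebra.smul_mem hzA _) (one_mem A.toStarSubalgebra)
  have hTs' : ‖T - s‖ ≤ 2 * d := by
    have e1 : T - s = (2 : ℂ) • (z - e) := by
      rw [hT, hs, smul_sub]
      abel
    rw [e1, norm_smul]
    have e3 : ‖(2 : ℂ)‖ = 2 := by norm_num
    rw [e3]
    linarith
  have hT1 : ‖T‖ ≤ 1 + 2 * d := by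
    calc ‖T‖ = ‖(T - s) + s‖ := by congr 1; abel
      _ ≤ ‖T - s‖ + ‖s‖ := norm_add_le _ _
      _ ≤ 1 + 2 * d := by linarith
  have hTT : ‖T * T - 1‖ ≤ 5 * d := by
    have e1 : T * T - 1 = (T - s) * T + s * (T - s) := by
      rw [← hs2]; noncomm_ring
    rw [e1]
    refine (norm_add_le _ _).trans ?_
    have e2 : ‖(T - s) * T‖ ≤ 2 * d * (1 + 2 * d) :=
      (norm_mul_le _ _).trans (mul_le_mul hTs' hT1 (norm_nonneg _) (by positivity))
    have e3 : ‖s * (T - s)‖ ≤ 1 * (2 * d) :=
      (norm_mul_le _ _).trans (mul_le_mul hs1 hTs' (norm_nonneg _) zero_le_one)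
    nlinarith
  obtain ⟨r, hrA, hrs, hrr, hrT⟩ := symm_near A hTs hTA (ε := 5 * d) (by linarith) hTT
  have hrs' : ‖r - s‖ ≤ 7 * d := by
    calc ‖r - s‖ = ‖(r - T) + (T - s)‖ := by congr 1; abel
      _ ≤ ‖r - T‖ + ‖T - s‖ := norm_add_le _ _
      _ ≤ 7 * d := by linarith
  obtain ⟨w, hw, hrw, hw1⟩ := symm_conj hrs hrr hss hs2 (η := 7 * d) (by linarith) hrs'
  obtain ⟨hw2, hw3⟩ := Unitary.mem_iff.1 hw
  refine ⟨star w, Unitary.star_mem hw, ?_, ?_⟩
  · have e1 : star w - 1 = star (w - 1) := by rw [star_sub, star_one]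
    rw [e1, norm_star]
    linarith
  · have e1 : star (star w) * e * star w = (2 : ℂ)⁻¹ • (r + 1) := by
      rw [star_star]
      have e2 : w * s * star w = r := by
        rw [← hrw, mul_assoc, hw3, mul_one]
      have e3 : e = (2 : ℂ)⁻¹ • (s + 1) := by
        rw [hs, sub_add_cancel, smul_smul]
        norm_num
      rw [e3, mul_smul_comm, smul_mul_assoc, mul_add, add_mul, e2, mul_one, hw3]
    rw [e1]
    have h2 : r + 1 ∈ A.toStarSubalgebra := add_mem hrA (one_mem A.toStarSubalgebra)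
    exact A.toStarSubalgebra.smul_mem h2 _

end Pool.Agent.W346.KKS
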